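import Mathlib

/-!
# The half line for a sequence of uniform laws whose characteristic functions tend to the Gaussian
-/

set_option autoImplicit false

namespace Pool.Agent.N916.ND

open MeasureTheory ProbabilityTheory Filter Topology
open scoped ENNReal NNReal

/-- the law of `y` for the uniform measure on `F` -/
noncomputable def law {α : Type} (F : Finset α) (y : α → ℝ) : Measure ℝ :=
  ((F.card : ℝ≥0∞)⁻¹) • ∑ S ∈ F, Measure.dirac (y S)

theorem law_apply {α : Type} (F : Finset α) (y : α → ℝ) (s : Set ℝ) (hs : MeasurableSet s) :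
    law F y s = ((F.card : ℝ≥0∞)⁻¹) * ∑ S ∈ F, s.indicator 1 (y S) := by
  unfold law
  rw [Measure.smul_apply, Measure.finsetSum_apply, smul_eq_mul]
  congr 1
  refine Finset.sum_congr rfl fun S _ => ?_
  rw [Measure.dirac_apply' _ hs]

theorem law_prob {α : Type} {F : Finset α} (hF : F.Nonempty) (y : α → ℝ) :
    IsProbabilityMeasure (law F y) := by
  constructor
  rw [law_apply _ _ _ MeasurableSet.univ]
  simp only [Set.indicator_univ, Pi.one_apply, Finset.sum_const, nsmul_eq_mul, mul_one]
  exact ENNReal.inv_mul_cancel (by simpa using hF.ne_empty) (ENNReal.natCast_ne_top _)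

theorem law_integral {α : Type} (F : Finset α) (y : α → ℝ) (f : ℝ → ℂ) :
    ∫ x, f x ∂(law F y) = (∑ S ∈ F, f (y S)) / F.card := by
  unfold law
  rw [integral_smul_measure, integral_finsetSum_measure]
  · simp only [integral_dirac]
    rw [ENNReal.toReal_inv, ENNReal.toReal_natCast, Complex.real_smul]
    push_cast
    ring
  · intro S _
    exact integrable_dirac (by simp [enorm_lt_top])

theorem law_charFun {α : Type} (F : Finset α) (y : α → ℝ) (t : ℝ) :
    charFun (law F y) t = (∑ S ∈ F, Complex.exp (t * y S * Complex.I)) / F.card := by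
  rw [charFun_apply_real, law_integral]

theorem gauss_half : gaussianReal 0 1 (Set.Ici 0) = 1 / 2 := by
  have h1 : (gaussianReal 0 1) (Set.Ici 0) = (gaussianReal 0 1) (Set.Iic 0) := by
    have h := gaussianReal_map_neg (μ := 0) (v := 1)
    rw [neg_zero] at h
    conv_lhs => rw [← h]
    rw [Measure.map_apply (by fun_prop) measurableSet_Ici]
    congr 1
    ext x
    simp
  have : NullSingletonClass (gaussianReal 0 1) := nullSingletonClass_gaussianReal one_ne_zero
  have h2 : (gaussianReal 0 1) (Set.Iic 0) = (gaussianReal 0 1) (Set.Iio 0) := by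
    exact (measure_congr Iio_ae_eq_Iic).symm
  have h3 : (gaussianReal 0 1) (Set.Ici 0) + (gaussianReal 0 1) (Set.Iio 0) = 1 := by
    rw [← measure_union (by
      rw [Set.disjoint_iff]
      rintro x ⟨hx1, hx2⟩
      exact absurd (Set.mem_Ici.1 hx1) (not_le.2 (Set.mem_Iio.1 hx2))) measurableSet_Iio]
    have : Set.Ici (0 : ℝ) ∪ Set.Iio 0 = Set.univ := by
      ext x
      simp
    rw [this]
    exact measure_univ
  rw [← h2, ← h1, ← two_mul] at h3
  rw [one_div]
  exact ENNReal.eq_inv_of_mul_eq_one_left (by rwa [mul_comm])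

theorem half_of_char {α : Type} (F : ℕ → Finset α) (y : ℕ → α → ℝ) (hF : ∀ n, (F n).Nonempty)
    (h : ∀ t : ℝ, Tendsto (fun n => (∑ S ∈ F n, Complex.exp (t * y n S * Complex.I)) / (F n).card)
      atTop (𝓝 (Complex.exp (-(t ^ 2 / 2))))) :
    Tendsto (fun n => (((F n).filter fun S => 0 ≤ y n S).card : ℝ) / (F n).card) atTop
      (𝓝 (1 / 2)) := by
  classical
  set μ : ℕ → ProbabilityMeasure ℝ := fun n => ⟨law (F n) (y n), law_prob (hF n) (y n)⟩ with hμ
  set μ₀ : ProbabilityMeasure ℝ := ⟨gaussianReal 0 1, inferInstance⟩ with hμ₀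
  have h1 : Tendsto μ atTop (𝓝 μ₀) := by
    refine ProbabilityMeasure.tendsto_of_tendsto_charFun fun t => ?_
    have e1 : charFun (μ₀ : Measure ℝ) t = Complex.exp (-(t ^ 2 / 2)) := by
      simp only [hμ₀, ProbabilityMeasure.coe_mk]
      rw [charFun_gaussianReal]
      congr 1
      push_cast
      ring
    rw [e1]
    refine (h t).congr fun n => ?_
    simp only [hμ, ProbabilityMeasure.coe_mk]
    rw [law_charFun]
  have h2 := ProbabilityMeasure.tendsto_measure_of_null_frontier_of_tendsto' h1
    (E := Set.Ici 0) (by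
      rw [frontier_Ici]
      simp only [hμ₀, ProbabilityMeasure.coe_mk]
      have : NullSingletonClass (gaussianReal 0 1) := nullSingletonClass_gaussianReal one_ne_zero
      exact measure_singleton 0)
  simp only [hμ₀, hμ, ProbabilityMeasure.coe_mk, gauss_half] at h2
  have h3 := (ENNReal.tendsto_toReal (by simp : (1 / 2 : ℝ≥0∞) ≠ ∞)).comp h2
  have e2 : ((1 / 2 : ℝ≥0∞)).toReal = 1 / 2 := by simp
  rw [e2] at h3
  refine h3.congr fun n => ?_
  rw [Function.comp_apply, law_apply _ _ _ measurableSet_Ici, ENNReal.toReal_mul, ENNReal.toReal_inv,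
    ENNReal.toReal_natCast]
  have e3 : (∑ S ∈ F n, (Set.Ici (0 : ℝ)).indicator (1 : ℝ → ℝ≥0∞) (y n S)) =
      (((F n).filter fun S => 0 ≤ y n S).card : ℝ≥0∞) := by
    rw [Finset.card_filter]
    push_cast
    refine Finset.sum_congr rfl fun S _ => ?_
    by_cases hS : 0 ≤ y n S
    · simp [hS]
    · simp [hS]
  rw [e3, ENNReal.toReal_natCast]
  ring

end Pool.Agent.N916.ND
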