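import Mathlib

/-!
# Counting squarefree numbers in the classes modulo `4`, prime to a set of odd primes
-/

set_option autoImplicit false

namespace Pool.Agent.N916.ND

open Finset
open scoped ArithmeticFunction.Moebius

/-- the squarefree numbers up to `n`, congruent to `a` modulo `4`, prime to the primes of `T` -/
def QQ (a n : ℕ) (T : Finset ℕ) : Finset ℕ :=
  (Icc 1 n).filter fun m => Squarefree m ∧ m % 4 = a ∧ ∀ p ∈ T, ¬ p ∣ m

theorem sq_dvd_iff {s t a : ℕ} (ht : 0 < t) (ha : Squarefree a) : s ^ 2 ∣ t ^ 2 * a ↔ s ∣ t := by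
  constructor
  · intro h
    rcases Nat.eq_zero_or_pos s with hs | hs
    · subst hs
      rw [zero_pow two_ne_zero, zero_dvd_iff] at h
      rcases Nat.mul_eq_zero.1 h with h | h
      · rw [pow_eq_zero_iff two_ne_zero] at h
        omega
      · exact absurd h ha.ne_zero
    obtain ⟨g, s', t', hg, hc, hs', ht'⟩ := Nat.exists_coprime' (m := s) (n := t) (Nat.gcd_pos_of_pos_left _ hs)
    subst hs' ht'
    rw [mul_pow, mul_pow, mul_comm (s' ^ 2), mul_comm (t' ^ 2), mul_assoc] at h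
    have h1 := Nat.dvd_of_mul_dvd_mul_left (pow_pos hg 2) h
    have h2 : s' ^ 2 ∣ a := (Nat.Coprime.pow 2 2 hc).dvd_of_dvd_mul_left h1
    have h3 := ha s' (by rw [← sq]; exact h2)
    rw [Nat.isUnit_iff] at h3
    rw [h3, one_mul]
    exact dvd_mul_left _ _
  · intro h
    exact (pow_dvd_pow_of_dvd h 2).trans (dvd_mul_right _ _)

/-- the indicator function of the squarefree numbers -/
theorem ind_sqf {m r : ℕ} (hm : 0 < m) (hr : m < (r + 1) ^ 2) :
    ∑ s ∈ (Icc 1 r).filter (fun s => s ^ 2 ∣ m), μ s = if Squarefree m then 1 else 0 := by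
  obtain ⟨a, t, ha, ht, hm', hsq⟩ := Nat.sq_mul_squarefree_of_pos hm
  subst hm'
  have e1 : (Icc 1 r).filter (fun s => s ^ 2 ∣ t ^ 2 * a) = t.divisors := by
    ext s
    rw [mem_filter, mem_Icc, sq_dvd_iff ht hsq, Nat.mem_divisors]
    constructor
    · rintro ⟨-, h⟩
      exact ⟨h, ht.ne'⟩
    · rintro ⟨h, -⟩
      refine ⟨⟨Nat.pos_of_dvd_of_pos h ht, ?_⟩, h⟩
      have h1 : s ≤ t := Nat.le_of_dvd ht h
      have h2 : t ^ 2 < (r + 1) ^ 2 := lt_of_le_of_lt (Nat.le_mul_of_pos_right _ ha) hr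
      have h3 : t < r + 1 := lt_of_pow_lt_pow_left₀ 2 (Nat.zero_le _) h2
      omega
  rw [e1, ← ArithmeticFunction.coe_mul_zeta_apply, ArithmeticFunction.moebius_mul_coe_zeta,
    ArithmeticFunction.one_apply]
  have e2 : Squarefree (t ^ 2 * a) ↔ t = 1 := by
    constructor
    · intro h
      have := h t (by rw [← sq]; exact dvd_mul_right _ _)
      exact Nat.isUnit_iff.1 this
    · rintro rfl
      simpa using hsq
  simp only [e2]

/-- the number of the integers up to `n` in a class modulo `4` -/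
theorem card_mod4 (n a : ℕ) (ha : a = 1 ∨ a = 3) (y : ℝ) (hy : n ≤ y) (hy' : y < n + 1) :
    |(((Icc 1 n).filter fun k => k % 4 = a).card : ℝ) - y / 4| ≤ 1 := by
  have h1 : ∀ n : ℕ, ((Icc 1 n).filter fun k => k % 4 = a).card = (n + 4 - a) / 4 := by
    intro n
    induction n with
    | zero =>
      simp
      rcases ha with rfl | rfl <;> rfl
    | succ n ih =>
      rw [← Finset.insert_Icc_right_eq_Icc_add_one (by omega : 1 ≤ n + 1), filter_insert]
      split_ifs with h
      · rw [card_insert_of_notMem (by simp), ih]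
        rcases ha with rfl | rfl <;> omega
      · rw [ih]
        rcases ha with rfl | rfl <;> omega
  rw [h1 n]
  have h2 : 4 * ((n + 4 - a) / 4) ≤ n + 3 := by rcases ha with rfl | rfl <;> omega
  have h3 : n ≤ 4 * ((n + 4 - a) / 4) + 2 := by rcases ha with rfl | rfl <;> omega
  have h2' : 4 * (((n + 4 - a) / 4 : ℕ) : ℝ) ≤ n + 3 := by exact_mod_cast h2
  have h3' : (n : ℝ) ≤ 4 * (((n + 4 - a) / 4 : ℕ) : ℝ) + 2 := by exact_mod_cast h3
  rw [abs_le]
  constructor <;> linarith

/-- the multiples of an odd square in a class modulo `4` -/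
theorem card_mod4_sq (n a s : ℕ) (ha : a = 1 ∨ a = 3) (hs : s % 2 = 1) (x : ℝ) (hx : n ≤ x)
    (hx' : x < n + 1) :
    |(((Icc 1 n).filter fun k => k % 4 = a ∧ s ^ 2 ∣ k).card : ℝ) - x / 4 / s ^ 2| ≤ 1 := by
  have hs0 : 0 < s ^ 2 := pow_pos (by omega) 2
  have hsm : s ^ 2 % 4 = 1 := by
    have : s % 4 = 1 ∨ s % 4 = 3 := by omega
    rcases this with h | h <;> simp [Nat.pow_mod, h]
  have e : ((Icc 1 n).filter fun k => k % 4 = a ∧ s ^ 2 ∣ k).card =
      ((Icc 1 (n / s ^ 2)).filter fun k => k % 4 = a).card := by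
    symm
    refine card_bij (fun k _ => s ^ 2 * k) ?_ ?_ ?_
    · intro k hk
      rw [mem_filter, mem_Icc] at hk ⊢
      refine ⟨⟨Nat.mul_pos hs0 hk.1.1, ?_⟩, ?_, dvd_mul_right _ _⟩
      · rw [mul_comm]
        exact (Nat.le_div_iff_mul_le hs0).1 hk.1.2
      · rw [Nat.mul_mod, hsm, hk.2]
        rcases ha with rfl | rfl <;> rfl
    · intro k _ l _ h
      exact Nat.eq_of_mul_eq_mul_left hs0 h
    · intro k hk
      rw [mem_filter, mem_Icc] at hk
      obtain ⟨⟨h1, h2⟩, h3, l, rfl⟩ := hk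
      refine ⟨l, ?_, rfl⟩
      rw [mem_filter, mem_Icc]
      refine ⟨⟨Nat.pos_of_mul_pos_left h1, ?_⟩, ?_⟩
      · rw [Nat.le_div_iff_mul_le hs0, mul_comm]
        exact h2
      · rw [Nat.mul_mod, hsm] at h3
        omega
  rw [e]
  have hs0' : (0 : ℝ) < (s : ℝ) ^ 2 := by exact_mod_cast hs0
  have h := card_mod4 (n / s ^ 2) a ha (x / s ^ 2) ?_ ?_
  · rw [div_right_comm]
    exact h
  · rw [le_div_iff₀ hs0']
    have : n / s ^ 2 * s ^ 2 ≤ n := Nat.div_mul_le_self _ _
    have h' : ((n / s ^ 2 : ℕ) : ℝ) * (s : ℝ) ^ 2 ≤ n := by exact_mod_cast this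
    linarith
  · rw [div_lt_iff₀ hs0']
    have : n + 1 ≤ (n / s ^ 2 + 1) * s ^ 2 := by
      have := Nat.lt_div_mul_add hs0 (a := n)
      rw [add_mul, one_mul]
      omega
    have h' : (n : ℝ) + 1 ≤ (((n / s ^ 2 : ℕ) : ℝ) + 1) * (s : ℝ) ^ 2 := by exact_mod_cast this
    linarith

/-- the partial sums -/
noncomputable def Sm (r : ℕ) : ℝ := ∑ s ∈ (Icc 1 r).filter (fun s => s % 2 = 1), (μ s : ℝ) / (s : ℝ) ^ 2

theorem Sm_step (r : ℕ) (hr : 1 ≤ r) : |Sm (r + 1) - Sm r| ≤ 1 / (r : ℝ) - 1 / ((r : ℝ) + 1) := by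
  have hr0 : (0 : ℝ) < r := by exact_mod_cast hr
  have hb : 1 / ((r : ℝ) + 1) ^ 2 ≤ 1 / (r : ℝ) - 1 / ((r : ℝ) + 1) := by
    rw [div_sub_div _ _ hr0.ne' (by positivity), div_le_div_iff₀ (by positivity) (by positivity)]
    nlinarith
  unfold Sm
  rw [← Finset.insert_Icc_right_eq_Icc_add_one (by omega : 1 ≤ r + 1), filter_insert]
  split_ifs with h
  · rw [sum_insert (by simp), add_sub_cancel_right, abs_div]
    refine le_trans ?_ hb
    push_cast
    rw [abs_of_pos (by positivity : (0 : ℝ) < ((r : ℝ) + 1) ^ 2)]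
    refine div_le_div_of_nonneg_right ?_ (by positivity)
    exact_mod_cast ArithmeticFunction.abs_moebius_le_one
  · rw [sub_self, abs_zero]
    exact (by positivity : (0 : ℝ) ≤ 1 / ((r : ℝ) + 1) ^ 2).trans hb

theorem Sm_diff (r k : ℕ) (hr : 1 ≤ r) : |Sm (r + k) - Sm r| ≤ 1 / (r : ℝ) - 1 / ((r : ℝ) + k) := by
  induction k with
  | zero => simp
  | succ k ih =>
    have h := Sm_step (r + k) (by omega)
    have e : Sm (r + (k + 1)) - Sm r = (Sm (r + k + 1) - Sm (r + k)) + (Sm (r + k) - Sm r) := by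
      rw [← add_assoc]; ring
    rw [e]
    refine (abs_add_le _ _).trans ?_
    push_cast at h ⊢
    rw [← add_assoc]
    linarith

theorem Sm_lim : ∃ c : ℝ, (1 / 2 : ℝ) ≤ c ∧ ∀ r : ℕ, 1 ≤ r → |Sm r - c| ≤ 1 / (r : ℝ) := by
  have hC : CauchySeq Sm := by
    rw [Metric.cauchySeq_iff']
    intro ε hε
    obtain ⟨N, hN⟩ := exists_nat_gt (1 / ε)
    have hN1 : 1 ≤ N + 1 := by omega
    refine ⟨N + 1, fun n hn => ?_⟩
    obtain ⟨k, rfl⟩ := Nat.exists_eq_add_of_le hn
    rw [Real.dist_eq]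
    refine lt_of_le_of_lt (Sm_diff (N + 1) k hN1) ?_
    have h1 : (0 : ℝ) < 1 / (((N + 1 : ℕ) : ℝ) + k) := by positivity
    have h2 : 1 / ((N + 1 : ℕ) : ℝ) < ε := by
      rw [div_lt_comm₀ (by positivity) hε]
      push_cast
      linarith
    linarith
  obtain ⟨c, hc⟩ := cauchySeq_tendsto_of_complete hC
  have hlim : ∀ r : ℕ, 1 ≤ r → |Sm r - c| ≤ 1 / (r : ℝ) := by
    intro r hr
    have h1 : Filter.Tendsto (fun n => |Sm r - Sm n|) Filter.atTop (nhds |Sm r - c|) :=
      (tendsto_const_nhds.sub hc).abs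
    refine le_of_tendsto h1 ?_
    filter_upwards [Filter.eventually_ge_atTop r] with n hn
    obtain ⟨k, rfl⟩ := Nat.exists_eq_add_of_le hn
    rw [abs_sub_comm]
    have h2 := Sm_diff r k hr
    have h3 : (0 : ℝ) ≤ 1 / ((r : ℝ) + k) := by positivity
    linarith
  refine ⟨c, ?_, hlim⟩
  have h2 := hlim 2 (by norm_num)
  have e : Sm 2 = 1 := by
    unfold Sm
    have : (Icc 1 2).filter (fun s => s % 2 = 1) = {1} := by decide
    rw [this]
    simp
  rw [e, abs_le] at h2
  norm_num at h2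
  linarith [h2.1, h2.2]

theorem QQ_empty (a n : ℕ) : QQ a n ∅ = (Icc 1 n).filter fun m => m % 4 = a ∧ Squarefree m := by
  unfold QQ
  ext m
  simp only [mem_filter, notMem_empty, false_imp_iff, implies_true, and_true]
  tauto

theorem QQ_base : ∃ c C : ℝ, 0 < c ∧ c ≤ C ∧ 1 ≤ C ∧ ∀ (a : ℕ) (x : ℝ), (a = 1 ∨ a = 3) → 0 ≤ x →
    |((QQ a ⌊x⌋₊ ∅).card : ℝ) - c * x| ≤ C * Real.sqrt x := by
  obtain ⟨c, hc0, hc⟩ := Sm_lim
  refine ⟨c / 4, c / 4 + 2, by linarith, by linarith, by linarith, fun a x ha hx => ?_⟩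
  rcases lt_or_ge x 1 with hx1 | hx1
  · have h0 : ⌊x⌋₊ = 0 := Nat.floor_eq_zero.2 hx1
    rw [h0]
    have : QQ a 0 ∅ = ∅ := by
      unfold QQ
      simp
    rw [this, card_empty, Nat.cast_zero, zero_sub, abs_neg, abs_of_nonneg (by positivity)]
    have h1 : x ≤ Real.sqrt x := by
      apply Real.le_sqrt_of_sq_le
      nlinarith
    have h2 : 0 ≤ Real.sqrt x := Real.sqrt_nonneg x
    nlinarith
  set n := ⌊x⌋₊ with hn
  have hn1 : 1 ≤ n := Nat.le_floor (by simpa using hx1)
  have hnx : (n : ℝ) ≤ x := Nat.floor_le hx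
  have hnx' : x < n + 1 := Nat.lt_floor_add_one x
  set r := Nat.sqrt n with hr
  have hr1 : 1 ≤ r := Nat.sqrt_pos.2 hn1
  have hrx : (r : ℝ) ≤ Real.sqrt x := by
    refine Real.le_sqrt_of_sq_le (le_trans ?_ hnx)
    exact_mod_cast Nat.sqrt_le' n
  have hrx' : Real.sqrt x ≤ 2 * r := by
    have h1 : n < (r + 1) ^ 2 := Nat.lt_succ_sqrt' n
    have h2 : n + 1 ≤ (r + 1) ^ 2 := h1
    have h3 : ((n : ℝ) + 1) ≤ ((r : ℝ) + 1) ^ 2 := by exact_mod_cast h2
    have h4 : Real.sqrt x ≤ r + 1 := by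
      rw [Real.sqrt_le_left (by positivity)]
      linarith
    have h5 : (1 : ℝ) ≤ r := by exact_mod_cast hr1
    linarith
  have e1 : ((QQ a n ∅).card : ℝ) = ∑ s ∈ (Icc 1 r).filter (fun s => s % 2 = 1),
      (μ s : ℝ) * (((Icc 1 n).filter fun k => k % 4 = a ∧ s ^ 2 ∣ k).card : ℝ) := by
    rw [QQ_empty, ← filter_filter, card_filter]
    push_cast
    have h1 : ∀ m ∈ (Icc 1 n).filter (fun m => m % 4 = a), (if Squarefree m then (1 : ℝ) else 0) =
        ∑ s ∈ (Icc 1 r).filter (fun s => s % 2 = 1), if s ^ 2 ∣ m then (μ s : ℝ) else 0 := by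
      intro m hm
      rw [mem_filter, mem_Icc] at hm
      have h2 := ind_sqf (m := m) (r := r) (by omega)
        (lt_of_le_of_lt hm.1.2 (Nat.lt_succ_sqrt' n))
      have h3 : (if Squarefree m then (1 : ℝ) else 0) = ((if Squarefree m then (1 : ℤ) else 0 : ℤ) : ℝ) := by
        split_ifs <;> simp
      rw [h3, ← h2]
      push_cast
      rw [← sum_filter, filter_filter]
      refine sum_congr ?_ fun _ _ => rfl
      ext s
      simp only [mem_filter, mem_Icc]
      constructor
      · rintro ⟨h4, h5⟩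
        refine ⟨h4, ?_, h5⟩
        by_contra h6
        have h7 : 2 ∣ s := by omega
        have h8 : 2 ^ 2 ∣ m := (pow_dvd_pow_of_dvd h7 2).trans h5
        rcases ha with rfl | rfl <;> omega
      · rintro ⟨h4, -, h5⟩
        exact ⟨h4, h5⟩
    rw [sum_congr rfl h1, sum_comm]
    refine sum_congr rfl fun s _ => ?_
    rw [← sum_filter, sum_const, nsmul_eq_mul, filter_filter, mul_comm]
  have e2 : |((QQ a n ∅).card : ℝ) - x / 4 * Sm r| ≤ r := by
    rw [e1]
    unfold Sm
    rw [mul_sum, ← sum_sub_distrib]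
    refine (abs_sum_le_sum_abs _ _).trans ?_
    have h1 : ∀ s ∈ (Icc 1 r).filter (fun s => s % 2 = 1),
        |(μ s : ℝ) * (((Icc 1 n).filter fun k => k % 4 = a ∧ s ^ 2 ∣ k).card : ℝ) -
          x / 4 * ((μ s : ℝ) / (s : ℝ) ^ 2)| ≤ 1 := by
      intro s hs
      rw [mem_filter, mem_Icc] at hs
      have h2 := card_mod4_sq n a s ha hs.2 x hnx hnx'
      have h3 : |(μ s : ℝ)| ≤ 1 := by exact_mod_cast ArithmeticFunction.abs_moebius_le_one
      have e : (μ s : ℝ) * (((Icc 1 n).filter fun k => k % 4 = a ∧ s ^ 2 ∣ k).card : ℝ) -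
          x / 4 * ((μ s : ℝ) / (s : ℝ) ^ 2) =
          (μ s : ℝ) * ((((Icc 1 n).filter fun k => k % 4 = a ∧ s ^ 2 ∣ k).card : ℝ) -
            x / 4 / (s : ℝ) ^ 2) := by ring
      rw [e, abs_mul]
      exact mul_le_one₀ h3 (abs_nonneg _) h2
    refine (sum_le_sum h1).trans ?_
    rw [sum_const, nsmul_eq_mul, mul_one]
    have : ((Icc 1 r).filter (fun s => s % 2 = 1)).card ≤ r :=
      (card_filter_le _ _).trans (by simp)
    exact_mod_cast this
  have e3 := hc r hr1
  have hr0 : (0 : ℝ) < r := by exact_mod_cast hr1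
  have hsq : Real.sqrt x * Real.sqrt x = x := Real.mul_self_sqrt hx
  have hs0 : 0 ≤ Real.sqrt x := Real.sqrt_nonneg x
  have e4 : |x / 4 * Sm r - c / 4 * x| ≤ Real.sqrt x := by
    have : x / 4 * Sm r - c / 4 * x = x / 4 * (Sm r - c) := by ring
    rw [this, abs_mul, abs_of_nonneg (by positivity)]
    refine (mul_le_mul_of_nonneg_left e3 (by positivity)).trans ?_
    rw [mul_one_div, div_le_iff₀ hr0]
    nlinarith
  have e5 : |((QQ a n ∅).card : ℝ) - c / 4 * x| ≤ r + Real.sqrt x := by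
    have : ((QQ a n ∅).card : ℝ) - c / 4 * x = (((QQ a n ∅).card : ℝ) - x / 4 * Sm r) +
      (x / 4 * Sm r - c / 4 * x) := by ring
    rw [this]
    exact (abs_add_le _ _).trans (add_le_add e2 e4)
  refine e5.trans ?_
  nlinarith

/-- the recursion -/
theorem QQ_rec {a n p : ℕ} {T : Finset ℕ} (ha : a = 1 ∨ a = 3) (hp : p.Prime) (hp2 : p ≠ 2)
    (hT : ∀ q ∈ T, q.Prime) (hpT : p ∉ T) :
    (QQ a n (insert p T)).card + (QQ (a * p % 4) (n / p) (insert p T)).card = (QQ a n T).card := by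
  have hpo : p % 4 = 1 ∨ p % 4 = 3 := by
    have := hp.eq_two_or_odd
    omega
  have e : (QQ (a * p % 4) (n / p) (insert p T)).card = ((QQ a n T).filter fun m => p ∣ m).card := by
    refine card_bij (fun k _ => p * k) ?_ ?_ ?_
    · intro k hk
      unfold QQ at hk
      rw [mem_filter, mem_Icc] at hk
      obtain ⟨⟨h1, h2⟩, h3, h4, h5⟩ := hk
      have hpk : ¬ p ∣ k := h5 p (mem_insert_self _ _)
      rw [mem_filter]
      refine ⟨?_, dvd_mul_right _ _⟩
      unfold QQ
      rw [mem_filter, mem_Icc]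
      refine ⟨⟨Nat.mul_pos hp.pos h1, ?_⟩, ?_, ?_, ?_⟩
      · rw [mul_comm]
        exact (Nat.le_div_iff_mul_le hp.pos).1 h2
      · rw [Nat.squarefree_mul_iff]
        exact ⟨(Nat.Prime.coprime_iff_not_dvd hp).2 hpk, hp.prime.squarefree, h3⟩
      · rw [Nat.mul_mod, h4, Nat.mul_mod a p]
        rcases ha with rfl | rfl <;> rcases hpo with h | h <;> simp [h]
      · intro q hq hqk
        have hqp := hT q hq
        rcases (Nat.Prime.dvd_mul hqp).1 hqk with h | h
        · have := (Nat.prime_dvd_prime_iff_eq hqp hp).1 h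
          exact hpT (this ▸ hq)
        · exact h5 q (mem_insert_of_mem hq) h
    · intro k _ l _ h
      exact Nat.eq_of_mul_eq_mul_left hp.pos h
    · intro k hk
      rw [mem_filter] at hk
      obtain ⟨hk, l, rfl⟩ := hk
      unfold QQ at hk
      rw [mem_filter, mem_Icc] at hk
      obtain ⟨⟨h1, h2⟩, h3, h4, h5⟩ := hk
      refine ⟨l, ?_, rfl⟩
      rw [Nat.squarefree_mul_iff] at h3
      unfold QQ
      rw [mem_filter, mem_Icc]
      refine ⟨⟨Nat.pos_of_mul_pos_left h1, ?_⟩, h3.2.2, ?_, ?_⟩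
      · rw [Nat.le_div_iff_mul_le hp.pos, mul_comm]
        exact h2
      · rw [← h4]
        have hl : l % 4 = 0 ∨ l % 4 = 1 ∨ l % 4 = 2 ∨ l % 4 = 3 := by omega
        rcases hpo with h | h <;> rcases hl with h' | h' | h' | h' <;> simp [Nat.mul_mod, h, h']
      · intro q hq hql
        rw [mem_insert] at hq
        rcases hq with rfl | hq
        · exact (Nat.Prime.coprime_iff_not_dvd hp).1 h3.1 hql
        · exact h5 q hq (hql.mul_left _)
  rw [e]
  have e2 : QQ a n (insert p T) = (QQ a n T).filter fun m => ¬ p ∣ m := by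
    unfold QQ
    ext m
    simp only [mem_filter, mem_insert, forall_eq_or_imp]
    tauto
  rw [e2, add_comm]
  exact card_filter_add_card_filter_not _

/-- the density factor -/
noncomputable def rh (T : Finset ℕ) : ℝ := ∏ p ∈ T, ((p : ℝ) / (p + 1))

theorem rh_nonneg (T : Finset ℕ) : 0 ≤ rh T := prod_nonneg fun p _ => by positivity

theorem rh_le (T : Finset ℕ) : rh T ≤ 1 := by
  refine prod_le_one (fun p _ => by positivity) fun p _ => ?_
  rw [div_le_one (by positivity)]
  linarith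

theorem QQ_main : ∃ c C : ℝ, 0 < c ∧ c ≤ C ∧ 1 ≤ C ∧ ∀ T : Finset ℕ, (∀ p ∈ T, p.Prime ∧ p ≠ 2) →
    ∀ (a : ℕ) (x : ℝ), (a = 1 ∨ a = 3) → 0 ≤ x →
    |((QQ a ⌊x⌋₊ T).card : ℝ) - c * rh T * x| ≤ C * 3 ^ T.card * Real.sqrt x := by
  obtain ⟨c, C, hc, hcC, hC1, hbase⟩ := QQ_base
  refine ⟨c, C, hc, hcC, hC1, fun T => ?_⟩
  induction T using Finset.induction_on with
  | empty =>
    intro _ a x ha hx
    have := hbase a x ha hx
    simpa [rh] using this
  | insert p T hpT ih =>
    intro hT a x ha hx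
    have hT' : ∀ q ∈ T, q.Prime ∧ q ≠ 2 := fun q hq => hT q (mem_insert_of_mem hq)
    obtain ⟨hp, hp2⟩ := hT p (mem_insert_self _ _)
    have hp3 : 3 ≤ p := by
      have := hp.two_le
      omega
    have hp3' : (3 : ℝ) ≤ p := by exact_mod_cast hp3
    have hp0 : (0 : ℝ) < p := by linarith
    -- strong induction on the integral part
    have key : ∀ N : ℕ, ∀ (a : ℕ) (x : ℝ), (a = 1 ∨ a = 3) → 0 ≤ x → ⌊x⌋₊ ≤ N →
        |((QQ a ⌊x⌋₊ (insert p T)).card : ℝ) - c * rh (insert p T) * x| ≤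
          C * 3 ^ (insert p T).card * Real.sqrt x := by
      intro N
      induction N with
      | zero =>
        intro a x ha hx hN
        have hN0 : ⌊x⌋₊ = 0 := by omega
        rw [hN0]
        have hx1 : x < 1 := Nat.floor_eq_zero.1 hN0
        have : QQ a 0 (insert p T) = ∅ := by
          unfold QQ
          simp
        rw [this, card_empty, Nat.cast_zero, zero_sub, abs_neg,
          abs_of_nonneg (mul_nonneg (mul_nonneg hc.le (rh_nonneg _)) hx)]
        have h1 : x ≤ Real.sqrt x := by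
          apply Real.le_sqrt_of_sq_le
          nlinarith
        have h2 : 0 ≤ Real.sqrt x := Real.sqrt_nonneg x
        have h3 : (1 : ℝ) ≤ 3 ^ (insert p T).card := one_le_pow₀ (by norm_num)
        have h4 : c * rh (insert p T) ≤ C := by
          have := mul_le_mul_of_nonneg_left (rh_le (insert p T)) hc.le
          linarith
        calc c * rh (insert p T) * x ≤ C * Real.sqrt x :=
              mul_le_mul h4 h1 hx (by linarith)
          _ ≤ C * 3 ^ (insert p T).card * Real.sqrt x := by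
              refine mul_le_mul_of_nonneg_right ?_ h2
              nlinarith
      | succ N ihN =>
        intro a x ha hx hN
        have hpo : p % 4 = 1 ∨ p % 4 = 3 := by
          have := hp.eq_two_or_odd
          omega
        have ha' : a * p % 4 = 1 ∨ a * p % 4 = 3 := by
          rcases ha with rfl | rfl <;> rcases hpo with h | h <;> simp [Nat.mul_mod, h]
        have hrec := QQ_rec (n := ⌊x⌋₊) ha hp hp2 (fun q hq => (hT' q hq).1) hpT
        have hfl : ⌊x⌋₊ / p = ⌊x / p⌋₊ := (Nat.floor_div_natCast x p).symm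
        rw [hfl] at hrec
        have hxp : 0 ≤ x / p := by positivity
        have hle : ⌊x / p⌋₊ ≤ N := by
          rw [← hfl]
          have := Nat.div_lt_self (n := ⌊x⌋₊) (k := p)
          rcases Nat.eq_zero_or_pos ⌊x⌋₊ with h | h
          · rw [h]
            simp
          · have := this h (by omega)
            omega
        have h1 := ihN (a * p % 4) (x / p) ha' hxp hle
        have h2 := ih hT' a x ha hx
        have hrec' : ((QQ a ⌊x⌋₊ (insert p T)).card : ℝ) =
            (QQ a ⌊x⌋₊ T).card - (QQ (a * p % 4) ⌊x / p⌋₊ (insert p T)).card := by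
          rw [← hrec]
          push_cast
          ring
        have hrh : rh (insert p T) = (p : ℝ) / (p + 1) * rh T := by
          unfold rh
          rw [prod_insert hpT]
        have hcard : (insert p T).card = T.card + 1 := card_insert_of_notMem hpT
        have hmain : c * rh (insert p T) * x = c * rh T * x - c * rh (insert p T) * (x / p) := by
          rw [hrh]
          field_simp
          ring
        rw [hrec', hmain]
        have e : ((QQ a ⌊x⌋₊ T).card : ℝ) - (QQ (a * p % 4) ⌊x / p⌋₊ (insert p T)).card -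
            (c * rh T * x - c * rh (insert p T) * (x / p)) =
            (((QQ a ⌊x⌋₊ T).card : ℝ) - c * rh T * x) -
            (((QQ (a * p % 4) ⌊x / p⌋₊ (insert p T)).card : ℝ) - c * rh (insert p T) * (x / p)) := by
          ring
        rw [e]
        refine (abs_sub _ _).trans ?_
        refine (add_le_add h2 h1).trans ?_
        rw [hcard, pow_succ]
        have h3 : Real.sqrt (x / p) ≤ Real.sqrt x * (3 / 5) := by
          rw [Real.sqrt_le_left (by positivity), mul_pow, Real.sq_sqrt hx, div_le_iff₀ hp0]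
          nlinarith
        have h4 : 0 ≤ C * (3 : ℝ) ^ T.card := by positivity
        have h5 : 0 ≤ C * (3 : ℝ) ^ T.card * Real.sqrt x := mul_nonneg h4 (Real.sqrt_nonneg _)
        have h6 : C * ((3 : ℝ) ^ T.card * 3) * Real.sqrt (x / p) ≤
            C * ((3 : ℝ) ^ T.card * 3) * (Real.sqrt x * (3 / 5)) :=
          mul_le_mul_of_nonneg_left h3 (by positivity)
        nlinarith
    exact key ⌊x⌋₊ a x ha hx le_rfl

end Pool.Agent.N916.ND
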